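import Mathlib

set_option autoImplicit false

/-! Combinatorial core of the monomial space bound for the functional pigeonhole principle. -/

namespace Pool.Agent.Lib.FPHPSp

open Finset

variable {A B : Type*} [DecidableEq A] [DecidableEq B]

/-- Two distinct edges of `μ` share neither the pigeon nor the hole. -/
def IsMatching (μ : Finset (A × B)) : Prop :=
  ∀ e ∈ μ, ∀ f ∈ μ, (e.1 = f.1 ∨ e.2 = f.2) → e = f

/-- The edge `f` conflicts with the edge `e`. -/
def Conf (e f : A × B) : Prop := (e.1 = f.1 ∨ e.2 = f.2) ∧ e ≠ f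

/-- The edge `f` kills the monomial `∏_{e ∈ q.1} x_e ∏_{e ∈ q.2} x̄_e`. -/
def KillsE (f : A × B) (q : Finset (A × B) × Finset (A × B)) : Prop :=
  f ∈ q.2 ∨ ∃ e ∈ q.1, Conf e f

def Kills (μ : Finset (A × B)) (q : Finset (A × B) × Finset (A × B)) : Prop :=
  ∃ f ∈ μ, KillsE f q

def Fixed (μ : Finset (A × B)) (q : Finset (A × B) × Finset (A × B)) : Prop :=
  (∀ e ∈ q.1, e ∈ μ) ∧ ∀ e ∈ q.2, ∃ f ∈ μ, Conf e f

/-- The value of the monomial at `μ` is one. -/
def Val (μ : Finset (A × B)) (q : Finset (A × B) × Finset (A × B)) : Prop :=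
  (∀ e ∈ q.1, e ∈ μ) ∧ ∀ e ∈ q.2, e ∉ μ

omit [DecidableEq A] [DecidableEq B] in
theorem kills_mono {μ ν : Finset (A × B)} (h : μ ⊆ ν) {q : Finset (A × B) × Finset (A × B)}
    (hk : Kills μ q) : Kills ν q := by
  obtain ⟨f, hf, h'⟩ := hk
  exact ⟨f, h hf, h'⟩

omit [DecidableEq A] [DecidableEq B] in
theorem fixed_mono {μ ν : Finset (A × B)} (h : μ ⊆ ν) {q : Finset (A × B) × Finset (A × B)}
    (hk : Fixed μ q) : Fixed ν q := by
  refine ⟨fun e he => h (hk.1 e he), fun e he => ?_⟩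
  obtain ⟨f, hf, h'⟩ := hk.2 e he
  exact ⟨f, h hf, h'⟩

omit [DecidableEq A] [DecidableEq B] in
theorem not_val_of_kills {μ : Finset (A × B)} (hμ : IsMatching μ)
    {q : Finset (A × B) × Finset (A × B)} (hk : Kills μ q) : ¬ Val μ q := by
  rintro ⟨h1, h2⟩
  obtain ⟨f, hf, h' | ⟨e, he, hc, hne⟩⟩ := hk
  · exact h2 f h' hf
  · exact hne (hμ e (h1 e he) f hf hc)

omit [DecidableEq A] [DecidableEq B] in
theorem val_of_fixed {μ : Finset (A × B)} (hμ : IsMatching μ)
    {q : Finset (A × B) × Finset (A × B)} (hk : Fixed μ q) : Val μ q := by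
  refine ⟨hk.1, fun e he hem => ?_⟩
  obtain ⟨f, hf, hc, hne⟩ := hk.2 e he
  exact hne (hμ e hem f hf hc)

theorem isMatching_insert {μ : Finset (A × B)} (hμ : IsMatching μ) {e : A × B}
    (he : ∀ f ∈ μ, e.1 ≠ f.1 ∧ e.2 ≠ f.2) : IsMatching (insert e μ) := by
  intro f hf g hg hfg
  rw [mem_insert] at hf hg
  rcases hf with rfl | hf <;> rcases hg with rfl | hg
  · rfl
  · rcases hfg with h | h
    · exact absurd h (he g hg).1
    · exact absurd h (he g hg).2
  · rcases hfg with h | h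
    · exact absurd h.symm (he f hf).1
    · exact absurd h.symm (he f hf).2
  · exact hμ f hf g hg hfg

variable [Fintype B]

omit [DecidableEq A] in
/-- A free hole different from `j` exists when `μ` has at most `n - 2` edges. -/
theorem exists_free {μ : Finset (A × B)} (hc : μ.card + 2 ≤ Fintype.card B) (j : B) :
    ∃ j' : B, j' ≠ j ∧ ∀ f ∈ μ, j' ≠ f.2 := by
  classical
  by_contra hcon
  push Not at hcon
  have h1 : (univ : Finset B) ⊆ insert j (μ.image Prod.snd) := by
    intro x _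
    rw [mem_insert]
    by_cases hx : x = j
    · exact Or.inl hx
    · right
      obtain ⟨f, hf, h⟩ := hcon x hx
      exact mem_image.2 ⟨f, hf, h.symm⟩
  have h2 := card_le_card h1
  have h3 := card_insert_le j (μ.image Prod.snd)
  have h4 : (μ.image Prod.snd).card ≤ μ.card := card_image_le
  rw [card_univ] at h2
  omega

/-- An undecided monomial can be killed by one more edge. -/
theorem exists_kill {μ : Finset (A × B)} (hμ : IsMatching μ)
    (hc : μ.card + 2 ≤ Fintype.card B) {q : Finset (A × B) × Finset (A × B)}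
    (hk : ¬ Kills μ q) (hf : ¬ Fixed μ q) :
    ∃ e : A × B, IsMatching (insert e μ) ∧ Kills (insert e μ) q := by
  classical
  have hk' : ∀ f ∈ μ, f ∉ q.2 ∧ ∀ e ∈ q.1, ¬ Conf e f := by
    intro f hfm
    refine ⟨fun h => hk ⟨f, hfm, Or.inl h⟩, fun e he h => hk ⟨f, hfm, Or.inr ⟨e, he, h⟩⟩⟩
  by_cases h1 : ∀ e ∈ q.1, e ∈ μ
  · have h2 : ¬ ∀ e ∈ q.2, ∃ f ∈ μ, Conf e f := fun h => hf ⟨h1, h⟩
    push Not at h2
    obtain ⟨e, he, h2⟩ := h2
    have hem : e ∉ μ := fun h => (hk' e h).1 he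
    refine ⟨e, isMatching_insert hμ ?_, e, mem_insert_self _ _, Or.inl he⟩
    intro f hfm
    have hne : e ≠ f := fun h => hem (h ▸ hfm)
    refine ⟨fun h => h2 f hfm ⟨Or.inl h, hne⟩, fun h => h2 f hfm ⟨Or.inr h, hne⟩⟩
  · push Not at h1
    obtain ⟨e, he, hem⟩ := h1
    obtain ⟨j', hj1, hj2⟩ := exists_free (μ := μ) hc e.2
    have hcomp : ∀ f ∈ μ, e.1 ≠ f.1 := by
      intro f hfm h
      have hne : e ≠ f := fun h => hem (h ▸ hfm)
      exact (hk' f hfm).2 e he ⟨Or.inl h, hne⟩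
    refine ⟨(e.1, j'), isMatching_insert hμ ?_, (e.1, j'), mem_insert_self _ _, Or.inr ⟨e, he, ?_⟩⟩
    · intro f hfm
      exact ⟨hcomp f hfm, hj2 f hfm⟩
    · refine ⟨Or.inl rfl, fun h => hj1 ?_⟩
      rw [h]

/-- Matching one pigeon. -/
theorem exists_match {μ : Finset (A × B)} (hμ : IsMatching μ)
    (hc : μ.card + 1 ≤ Fintype.card B) (i : A) :
    ∃ ν : Finset (A × B), μ ⊆ ν ∧ IsMatching ν ∧ ν.card ≤ μ.card + 1 ∧ ∃ e ∈ ν, e.1 = i := by
  classical
  by_cases h : ∃ e ∈ μ, e.1 = i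
  · exact ⟨μ, Subset.rfl, hμ, by omega, h⟩
  · push Not at h
    have : ∃ j' : B, ∀ f ∈ μ, j' ≠ f.2 := by
      by_contra hcon
      push Not at hcon
      have h1 : (univ : Finset B) ⊆ μ.image Prod.snd := by
        intro x _
        obtain ⟨f, hf, h⟩ := hcon x
        exact mem_image.2 ⟨f, hf, h.symm⟩
      have h2 := card_le_card h1
      have h4 : (μ.image Prod.snd).card ≤ μ.card := card_image_le
      rw [card_univ] at h2
      omega
    obtain ⟨j', hj⟩ := this
    refine ⟨insert (i, j') μ, subset_insert _ _, isMatching_insert hμ ?_, card_insert_le _ _,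
      (i, j'), mem_insert_self _ _, rfl⟩
    intro f hf
    exact ⟨fun h' => h f hf h'.symm, hj f hf⟩

omit [Fintype B] in
/-- Matching one hole. -/
theorem exists_match' [Fintype A] {μ : Finset (A × B)} (hμ : IsMatching μ)
    (hc : μ.card + 1 ≤ Fintype.card A) (j : B) :
    ∃ ν : Finset (A × B), μ ⊆ ν ∧ IsMatching ν ∧ ν.card ≤ μ.card + 1 ∧ ∃ e ∈ ν, e.2 = j := by
  classical
  by_cases h : ∃ e ∈ μ, e.2 = j
  · exact ⟨μ, Subset.rfl, hμ, by omega, h⟩
  · push Not at h
    have : ∃ i' : A, ∀ f ∈ μ, i' ≠ f.1 := by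
      by_contra hcon
      push Not at hcon
      have h1 : (univ : Finset A) ⊆ μ.image Prod.fst := by
        intro x _
        obtain ⟨f, hf, h⟩ := hcon x
        exact mem_image.2 ⟨f, hf, h.symm⟩
      have h2 := card_le_card h1
      have h4 : (μ.image Prod.fst).card ≤ μ.card := card_image_le
      rw [card_univ] at h2
      omega
    obtain ⟨i', hi⟩ := this
    refine ⟨insert (i', j) μ, subset_insert _ _, isMatching_insert hμ ?_, card_insert_le _ _,
      (i', j), mem_insert_self _ _, rfl⟩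
    intro f hf
    exact ⟨hi f hf, fun h' => h f hf h'.symm⟩

/-- Matching one vertex. -/
theorem exists_match2 [Fintype A] {μ : Finset (A × B)} (hμ : IsMatching μ)
    (hc : μ.card + 1 ≤ Fintype.card B) (hAB : Fintype.card B ≤ Fintype.card A) (i : A ⊕ B) :
    ∃ ν : Finset (A × B), μ ⊆ ν ∧ IsMatching ν ∧ ν.card ≤ μ.card + 1 ∧
      ∃ e ∈ ν, Sum.inl e.1 = i ∨ Sum.inr e.2 = i := by
  rcases i with i | j
  · obtain ⟨ν, h1, h2, h3, e, he, h4⟩ := exists_match hμ hc i
    exact ⟨ν, h1, h2, h3, e, he, Or.inl (by rw [h4])⟩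
  · obtain ⟨ν, h1, h2, h3, e, he, h4⟩ := exists_match' hμ (hc.trans hAB) j
    exact ⟨ν, h1, h2, h3, e, he, Or.inr (by rw [h4])⟩

/-- Abstract run: `Q t` are the monomials in memory at time `t`, `G t μ` says that all polynomials
in memory at time `t` vanish at `μ`. -/
structure Run (A B : Type*) [DecidableEq A] [DecidableEq B] where
  len : ℕ
  Q : ℕ → Finset (Finset (A × B) × Finset (A × B))
  G : ℕ → Finset (A × B) → Prop
  dep : ∀ t μ ν, IsMatching μ → IsMatching ν → (∀ q ∈ Q t, Val μ q ↔ Val ν q) → (G t μ ↔ G t ν)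
  step : ∀ t < len, ∃ i : A ⊕ B, ∀ μ, IsMatching μ →
    (∃ e ∈ μ, Sum.inl e.1 = i ∨ Sum.inr e.2 = i) → G t μ → G (t + 1) μ

namespace Run

variable (R : Run A B)

def Dec (t : ℕ) (μ : Finset (A × B)) : Prop := ∀ q ∈ R.Q t, Kills μ q ∨ Fixed μ q

open Classical in
noncomputable def K (t : ℕ) (μ : Finset (A × B)) : Finset (Finset (A × B) × Finset (A × B)) :=
  (R.Q t).filter (Kills μ)

omit [Fintype B] in
theorem dec_mono {t : ℕ} {μ ν : Finset (A × B)} (h : μ ⊆ ν) (hd : R.Dec t μ) : R.Dec t ν := by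
  intro q hq
  rcases hd q hq with h1 | h1
  · exact Or.inl (kills_mono h h1)
  · exact Or.inr (fixed_mono h h1)

omit [Fintype B] in
theorem dec_ext {t : ℕ} {μ ν : Finset (A × B)} (h : μ ⊆ ν) (hμ : IsMatching μ)
    (hν : IsMatching ν) (hd : R.Dec t μ) : R.G t μ ↔ R.G t ν := by
  refine R.dep t μ ν hμ hν fun q hq => ?_
  rcases hd q hq with h1 | h1
  · exact iff_of_false (not_val_of_kills hμ h1) (not_val_of_kills hν (kills_mono h h1))
  · exact iff_of_true (val_of_fixed hμ h1) (val_of_fixed hν (fixed_mono h h1))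

omit [Fintype B] in
theorem K_mono {t : ℕ} {μ ν : Finset (A × B)} (h : μ ⊆ ν) : R.K t μ ⊆ R.K t ν := by
  classical
  intro q hq
  unfold K at *
  rw [mem_filter] at *
  exact ⟨hq.1, kills_mono h hq.2⟩

/-- One more edge kills one more monomial, if `μ` is not deciding. -/
theorem exists_more {t : ℕ} {μ : Finset (A × B)} (hμ : IsMatching μ)
    (hc : μ.card + 2 ≤ Fintype.card B) (hd : ¬ R.Dec t μ) :
    ∃ ν, μ ⊆ ν ∧ IsMatching ν ∧ ν.card ≤ μ.card + 1 ∧ (R.K t μ).card + 1 ≤ (R.K t ν).card := by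
  classical
  unfold Dec at hd
  push Not at hd
  obtain ⟨q, hq, h1, h2⟩ := hd
  obtain ⟨e, he, hk⟩ := exists_kill hμ hc h1 h2
  refine ⟨insert e μ, subset_insert _ _, he, card_insert_le _ _, ?_⟩
  have hq1 : q ∉ R.K t μ := by
    unfold K
    rw [mem_filter]
    exact fun h => h1 h.2
  rw [← card_insert_of_notMem hq1]
  refine card_le_card ?_
  intro r hr
  rw [mem_insert] at hr
  rcases hr with rfl | hr
  · unfold K
    rw [mem_filter]
    exact ⟨hq, hk⟩
  · exact R.K_mono (subset_insert _ _) hr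

omit [Fintype B] in
/-- The kills of a set `S` of monomials need at most `card S` edges. -/
theorem reduce {t : ℕ} {γ μ : Finset (A × B)} (h : γ ⊆ μ)
    {S : Finset (Finset (A × B) × Finset (A × B))} (hS : S ⊆ R.K t μ) :
    ∃ κ, γ ⊆ κ ∧ κ ⊆ μ ∧ κ.card ≤ γ.card + S.card ∧ S ⊆ R.K t κ := by
  classical
  have h1 : ∀ q ∈ S, ∃ f ∈ μ, KillsE f q := by
    intro q hq
    have := hS hq
    unfold K at this
    rw [mem_filter] at this
    exact this.2
  choose f hf1 hf2 using h1
  refine ⟨γ ∪ S.attach.image (fun q => f q.1 q.2), subset_union_left, ?_, ?_, ?_⟩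
  · refine union_subset h ?_
    intro e he
    rw [mem_image] at he
    obtain ⟨q, _, rfl⟩ := he
    exact hf1 q.1 q.2
  · refine (card_union_le _ _).trans (Nat.add_le_add_left ?_ _)
    exact card_image_le.trans (by rw [card_attach])
  · intro q hq
    have hq' := hS hq
    unfold K at hq' ⊢
    rw [mem_filter] at hq' ⊢
    exact ⟨hq'.1, f q hq, mem_union_right _ (mem_image.2 ⟨⟨q, hq⟩, mem_attach _ _, rfl⟩), hf2 q hq⟩

/-- All deciding extensions of `γ` with at most `k` new edges have status `b`. -/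
def Uni (k v : ℕ) (γ : Finset (A × B)) (b : Prop) : Prop :=
  ∀ μ, γ ⊆ μ → IsMatching μ → μ.card ≤ γ.card + k → R.Dec v μ → (R.G v μ ↔ b)

/-- Some extension of `γ` with at most `k` new edges kills at least `k` monomials. -/
def Hit (k v : ℕ) (γ : Finset (A × B)) : Prop :=
  ∃ μ, γ ⊆ μ ∧ IsMatching μ ∧ μ.card ≤ γ.card + k ∧ k ≤ (R.K v μ).card

theorem greedy {k v : ℕ} {γ : Finset (A × B)} (hγ : IsMatching γ)
    (hc : γ.card + k + 1 ≤ Fintype.card B)
    (hnd : ∀ μ, γ ⊆ μ → IsMatching μ → μ.card ≤ γ.card + k → ¬ R.Dec v μ) :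
    ∀ r ≤ k, ∃ μ, γ ⊆ μ ∧ IsMatching μ ∧ μ.card ≤ γ.card + r ∧ r ≤ (R.K v μ).card := by
  intro r
  induction r with
  | zero => intro _; exact ⟨γ, Subset.rfl, hγ, by omega, Nat.zero_le _⟩
  | succ r ih =>
    intro hr
    obtain ⟨μ, h1, h2, h3, h4⟩ := ih (by omega)
    obtain ⟨ν, g1, g2, g3, g4⟩ := R.exists_more h2 (by omega) (hnd μ h1 h2 (by omega))
    exact ⟨ν, h1.trans g1, g2, by omega, by omega⟩

theorem finish {k v : ℕ} {γ γ' : Finset (A × B)} {b : Prop} (hsub : γ ⊆ γ')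
    (hc : γ.card + k + 2 ≤ Fintype.card B)
    (hU : R.Uni (k + 1) v γ b) (hU' : R.Uni k v γ' (¬ b)) (hh : R.Hit k v γ') :
    R.Hit (k + 1) v γ := by
  classical
  obtain ⟨θ, h1, h2, h3, h4⟩ := hh
  have hγθ : γ ⊆ θ := hsub.trans h1
  by_cases hcase : k + 1 ≤ (R.K v θ).card
  · obtain ⟨S, hS1, hS2⟩ := exists_subset_card_eq hcase
    obtain ⟨κ, g1, g2, g3, g4⟩ := R.reduce hγθ hS1
    refine ⟨κ, g1, ?_, by omega, ?_⟩
    · intro e he f hf h
      exact h2 e (g2 he) f (g2 hf) h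
    · rw [← hS2]; exact card_le_card g4
  · obtain ⟨κ, g1, g2, g3, g4⟩ := R.reduce hγθ (Subset.refl (R.K v θ))
    have hκ : IsMatching κ := fun e he f hf h => h2 e (g2 he) f (g2 hf) h
    have hcK : (R.K v θ).card = k := by omega
    by_cases hd : R.Dec v κ
    · exfalso
      have e1 := hU κ g1 hκ (by omega) hd
      have e2 := hU' θ h1 h2 h3 (R.dec_mono g2 hd)
      have e3 := R.dec_ext g2 hκ h2 hd
      tauto
    · obtain ⟨ν, f1, f2, f3, f4⟩ := R.exists_more hκ (by omega) hd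
      have := card_le_card g4
      exact ⟨ν, g1.trans f1, f2, by omega, by omega⟩

/-- `bd k = k (k + 3) / 2`. -/
def bd : ℕ → ℕ
  | 0 => 0
  | k + 1 => bd k + (k + 2)

theorem two_bd (k : ℕ) : 2 * bd k = k * (k + 3) := by
  induction k with
  | zero => rfl
  | succ k ih => rw [bd, mul_add, ih]; ring

theorem le_bd (k : ℕ) : k + 1 ≤ bd (k) + 1 := by
  induction k with
  | zero => simp
  | succ k ih => rw [bd]; omega

/-- Main induction. -/
theorem main [Fintype A] (hAB : Fintype.card B ≤ Fintype.card A) (k : ℕ) : ∀ (γ : Finset (A × B)) (a d : ℕ) (b : Bool), IsMatching γ → a < d →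
    d ≤ R.len → γ.card + bd k ≤ Fintype.card B →
    (∀ μ, γ ⊆ μ → IsMatching μ → R.G a μ) → (∀ μ, γ ⊆ μ → IsMatching μ → ¬ R.G d μ) →
    ∃ v, a ≤ v ∧ v ≤ d ∧ R.Uni k v γ (b = true) ∧ R.Hit k v γ := by
  induction k with
  | zero =>
    intro γ a d b hγ had hd hc hga hgd
    cases b with
    | true =>
      exact ⟨a, le_rfl, had.le, fun μ h1 h2 _ _ => iff_of_true (hga μ h1 h2) rfl,
        γ, Subset.rfl, hγ, by omega, Nat.zero_le _⟩
    | false =>
      exact ⟨d, had.le, le_rfl, fun μ h1 h2 _ _ => iff_of_false (hgd μ h1 h2) (by simp),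
        γ, Subset.rfl, hγ, by omega, Nat.zero_le _⟩
  | succ k ih =>
    intro γ a d b hγ had hd hc hga hgd
    rw [bd] at hc
    classical
    cases b with
    | true =>
      -- times in `(a, d]` at which a deciding extension is bad
      by_cases hex : ∃ w, a < w ∧ w ≤ d ∧ ∃ μ, γ ⊆ μ ∧ IsMatching μ ∧
          μ.card ≤ γ.card + (k + 1) ∧ R.Dec w μ ∧ ¬ R.G w μ
      · let w := Nat.find hex
        have hw := Nat.find_spec hex
        have hmin : ∀ u, a < u → u < w → ∀ μ, γ ⊆ μ → IsMatching μ →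
            μ.card ≤ γ.card + (k + 1) → R.Dec u μ → R.G u μ := by
          intro u hu1 hu2 μ h1 h2 h3 h4
          by_contra h5
          exact Nat.find_min hex hu2 ⟨hu1, (hu2.le.trans hw.2.1), μ, h1, h2, h3, h4, h5⟩
        obtain ⟨haw, hwd, δ, d1, d2, d3, d4, d5⟩ := hw
        change a < w at haw
        change w ≤ d at hwd
        change R.Dec w δ at d4
        change ¬ R.G w δ at d5
        obtain ⟨i, hi⟩ := R.step (w - 1) (by omega)
        have hw1 : w - 1 + 1 = w := by omega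
        rw [hw1] at hi
        obtain ⟨γ', c1, c2, c3, c4⟩ := exists_match2 d2 (by omega) hAB i
        have hγγ' : γ ⊆ γ' := d1.trans c1
        have hbad : ∀ μ, γ' ⊆ μ → IsMatching μ → ¬ R.G (w - 1) μ := by
          intro μ h1 h2 h3
          obtain ⟨e, he, hei⟩ := c4
          have := hi μ h2 ⟨e, h1 he, hei⟩ h3
          exact d5 ((R.dec_ext (c1.trans h1) d2 h2 d4).2 this)
        have hlt : a < w - 1 := by
          rcases Nat.lt_or_ge a (w - 1) with h | h
          · exact h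
          · exfalso
            have h' : a = w - 1 := by omega
            exact hbad γ' Subset.rfl c2 (h' ▸ hga γ' hγγ' c2)
        obtain ⟨v, v1, v2, v3, v4⟩ := ih γ' a (w - 1) false c2 hlt (by omega) (by omega)
          (fun μ h1 h2 => hga μ (hγγ'.trans h1) h2) hbad
        have hU : R.Uni (k + 1) v γ (true = true) := by
          intro μ h1 h2 h3 h4
          refine iff_of_true ?_ rfl
          rcases Nat.eq_or_lt_of_le v1 with h | h
          · exact h ▸ hga μ h1 h2
          · exact hmin v h (by omega) μ h1 h2 h3 h4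
        refine ⟨v, v1, by omega, hU, R.finish hγγ' (by omega) hU ?_ v4⟩
        intro μ h1 h2 h3 h4
        rw [v3 μ h1 h2 h3 h4]
        simp
      · push Not at hex
        have hnd : ∀ μ, γ ⊆ μ → IsMatching μ → μ.card ≤ γ.card + (k + 1) → ¬ R.Dec d μ := by
          intro μ h1 h2 h3 h4
          exact hgd μ h1 h2 (hex d had le_rfl μ h1 h2 h3 h4)
        have hle := le_bd k
        refine ⟨d, had.le, le_rfl, fun μ h1 h2 h3 h4 => absurd h4 (hnd μ h1 h2 h3),
          R.greedy hγ (by omega) hnd (k + 1) le_rfl⟩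
    | false =>
      by_cases hex : ∃ w, w < d ∧ a ≤ w ∧ ∃ μ, γ ⊆ μ ∧ IsMatching μ ∧
          μ.card ≤ γ.card + (k + 1) ∧ R.Dec w μ ∧ R.G w μ
      · -- the last such time
        have hex' : ∃ r, ∃ w, w + r + 1 = d ∧ a ≤ w ∧ ∃ μ, γ ⊆ μ ∧ IsMatching μ ∧
          μ.card ≤ γ.card + (k + 1) ∧ R.Dec w μ ∧ R.G w μ := by
          obtain ⟨w, h1, h2⟩ := hex
          exact ⟨d - w - 1, w, by omega, h2⟩
        have hspec := Nat.find_spec hex'
        obtain ⟨w, hwr, haw, δ, d1, d2, d3, d4, d5⟩ := hspec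
        have hmax : ∀ u, w < u → u < d → ∀ μ, γ ⊆ μ → IsMatching μ →
            μ.card ≤ γ.card + (k + 1) → R.Dec u μ → ¬ R.G u μ := by
          intro u hu1 hu2 μ h1 h2 h3 h4 h5
          exact Nat.find_min hex' (m := d - u - 1) (by omega)
            ⟨u, by omega, by omega, μ, h1, h2, h3, h4, h5⟩
        obtain ⟨i, hi⟩ := R.step w (by omega)
        obtain ⟨γ', c1, c2, c3, c4⟩ := exists_match2 d2 (by omega) hAB i
        have hγγ' : γ ⊆ γ' := d1.trans c1
        have hgood : ∀ μ, γ' ⊆ μ → IsMatching μ → R.G (w + 1) μ := by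
          intro μ h1 h2
          obtain ⟨e, he, hei⟩ := c4
          exact hi μ h2 ⟨e, h1 he, hei⟩ ((R.dec_ext (c1.trans h1) d2 h2 d4).1 d5)
        have hlt : w + 1 < d := by
          rcases Nat.lt_or_ge (w + 1) d with h | h
          · exact h
          · exfalso
            have h' : w + 1 = d := by omega
            exact hgd γ' hγγ' c2 (h' ▸ hgood γ' Subset.rfl c2)
        obtain ⟨v, v1, v2, v3, v4⟩ := ih γ' (w + 1) d true c2 hlt (by omega) (by omega)
          hgood (fun μ h1 h2 => hgd μ (hγγ'.trans h1) h2)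
        have hU : R.Uni (k + 1) v γ (false = true) := by
          intro μ h1 h2 h3 h4
          refine iff_of_false ?_ (by simp)
          rcases Nat.eq_or_lt_of_le v2 with h | h
          · exact h ▸ hgd μ h1 h2
          · exact hmax v (by omega) h μ h1 h2 h3 h4
        refine ⟨v, by omega, v2, hU, R.finish hγγ' (by omega) hU ?_ v4⟩
        intro μ h1 h2 h3 h4
        rw [v3 μ h1 h2 h3 h4]
        simp
      · push Not at hex
        have hnd : ∀ μ, γ ⊆ μ → IsMatching μ → μ.card ≤ γ.card + (k + 1) → ¬ R.Dec a μ := by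
          intro μ h1 h2 h3 h4
          exact hex a had le_rfl μ h1 h2 h3 h4 (hga μ h1 h2)
        have hle := le_bd k
        refine ⟨a, le_rfl, had.le, fun μ h1 h2 h3 h4 => absurd h4 (hnd μ h1 h2 h3),
          R.greedy hγ (by omega) hnd (k + 1) le_rfl⟩

/-- The space bound for abstract runs. -/
theorem bound [Fintype A] (hAB : Fintype.card B ≤ Fintype.card A) (hlen : 0 < R.len) (h0 : ∀ μ, IsMatching μ → R.G 0 μ)
    (hl : ∀ μ, IsMatching μ → ¬ R.G R.len μ) (s : ℕ) (hs : ∀ t ≤ R.len, (R.Q t).card ≤ s) :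
    2 * Fintype.card B < (s + 1) * (s + 4) := by
  classical
  by_contra hcon
  push Not at hcon
  have hb : bd (s + 1) ≤ Fintype.card B := by
    have := two_bd (s + 1)
    have h2 : 2 * bd (s + 1) ≤ 2 * Fintype.card B := by
      rw [this]; exact hcon
    omega
  obtain ⟨v, _, v2, _, μ, _, _, _, h4⟩ := R.main hAB (s + 1) ∅ 0 R.len true
    (by intro e he; simp at he) hlen le_rfl (by simpa using hb) (fun μ _ h => h0 μ h)
    (fun μ _ h => hl μ h)
  have h5 : (R.K v μ).card ≤ (R.Q v).card := by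
    unfold K
    exact card_filter_le _ _
  have := hs v v2
  omega

end Run

end Pool.Agent.Lib.FPHPSp
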